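import Pool.Agent.Q123.FDP.Asm
import Pool.Agent.Q123.FDP.TPowA
import Pool.Agent.Q123.FDP.TaskPowB
import Pool.Agent.Q123.FDP.TMono
import Pool.Agent.Q123.FDP.TCone
import Pool.Agent.Q123.FDP.TaskSusp
import Pool.Agent.Q123.FDP.TaskCert
import Pool.Agent.Q123.FDP.TMob
import Pool.Agent.Q123.FDP.TNf
import Pool.Agent.Q123.FDP.TMf
import Pool.Agent.Q123.FDP.TR0
import Pool.Agent.Q123.FDP.TNeg
import Pool.Agent.Q123.FDP.TEnds
import Pool.Agent.Q123.FDP.TBlockCone
import Pool.Agent.Q123.FDP.TBlock2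
import Pool.Agent.Q123.FDP.TBlock1
import Pool.Agent.Q123.FDP.TCrossCone
import Pool.Agent.Q123.FDP.TCross
import Pool.Agent.Q123.FDP.TDep
import Pool.Agent.Q123.FDP.TaskRPQ
import Pool.Agent.Q123.FDP.TRP2
import Pool.Agent.Q123.FDP.TFin
import Pool.Agent.Q123.FDP.TSumsFin
import Pool.Agent.Q123.FDP.TTot

/-!
# MP_8a71fe_al: monomial ideals whose powers become field-dependent exactly from the power `h`

For a field `K` and a finite set `A` of exponents, `monIdeal K A` is the ideal of `K[x_1,…,x_n]` generated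
by the monomials with exponent in `A`. `betti J i` is `dim_K Tor_i(J, K)`, the sum over all multidegrees `b`
of the dimensions `gradedBetti J i b` of the components of multidegree `b` of the `i`-th homology of the
Koszul complex of the variables with coefficients in `J` (`Pool.Agent.Q123.KB.Defs`).

For `h ≥ 2` the ideal is `(t^s, z² t^(s-2), z t^(s-1) J₁, z^s m)`, `s = 2h - 1`, in eight variables, where
`J₁ + (m)` is Reisner's ideal and `m` one of its ten generators.

Lemmas (`Pool/Agent/Q123/FDP`) proved by helpers 28, 34, 43, 57, 87, 90, 115, 117, 128, 152, 158, 172, 174,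
199, 221, 234, 246, 247, 252, 256, 262, 296 and 330.
-/

set_option autoImplicit false

namespace Pool.Agent.Results.MP_8a71fe_al.FieldDependentFromPower

open Pool.Agent.Q123.KB Pool.Agent.Q123.FDP

theorem result : ∀ h : ℕ, 1 ≤ h → ∃ (n : ℕ) (A : Finset (Fin n →₀ ℕ)),
    (∀ ℓ, 1 ≤ ℓ → ℓ < h → ∀ (K K' : Type) [Field K] [Field K'] (i : ℕ),
      betti (monIdeal K (A : Set (Fin n →₀ ℕ)) ^ ℓ) i = betti (monIdeal K' (A : Set (Fin n →₀ ℕ)) ^ ℓ) i ∧
      ∀ b : Fin n →₀ ℕ, gradedBetti (monIdeal K (A : Set (Fin n →₀ ℕ)) ^ ℓ) i b =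
        gradedBetti (monIdeal K' (A : Set (Fin n →₀ ℕ)) ^ ℓ) i b) ∧
    (∀ ℓ, h ≤ ℓ → ∃ i, betti (monIdeal ℚ (A : Set (Fin n →₀ ℕ)) ^ ℓ) i ≠
      betti (monIdeal (ZMod 2) (A : Set (Fin n →₀ ℕ)) ^ ℓ) i) :=
  final TPowA.main TaskPowB.main TMono.main TCone.main TaskSusp.main TCert.main TMob.main TNf.main TMf.main
    TR0.main TNeg.main TEnds.main TBlockCone.main TBlock2.main (TBlock1.main TMono.main) TCrossCone.main
    TCross.main TDep.main TaskRPQ.main TRP2.main TFin.main TSumsFin.main TTot.main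

end Pool.Agent.Results.MP_8a71fe_al.FieldDependentFromPower
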